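import Pool.Agent.H10.AdsA

namespace Pool.Agent.Results.MP_0a2cd2_co.Gap
open Pool.Agent.H10.Ads

theorem result (r k : ℕ) (hr : 2 ≤ r) : ∃ (V : Type) (_ : Fintype V) (_ : DecidableEq V)
    (E : Finset (Finset V)), (∀ e ∈ E, e.card = r) ∧ chSep E + k ≤ chAd E :=
  main r k hr

end Pool.Agent.Results.MP_0a2cd2_co.Gap
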